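import Mathlib
import Pool.Agent.Burau938.Core
import Pool.Agent.Burau938.Degen
import Pool.Agent.Burau938.Perm

set_option autoImplicit false

namespace Pool.Agent.Results.MP_61a4e3_al.DegenerateBurau

open Matrix Pool.Agent.Burau938

/-- Congruence conditions for all `n, d`; exact determination of `Γ_{3,3}`; for `d ∣ n`: the
unipotent part of `Γ_{n,d}`, and `Γ_{n,d}` as a full preimage. -/
theorem result :
    (∀ n d : ℕ, 3 ≤ n → 3 ≤ d →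
      (∀ i, ∃ g ∈ Gam n d, (g : Matrix (Fin (n - 1)) (Fin (n - 1)) ℂ) = sigma n d i) ∧
      ∀ g ∈ Gam n d, g ∈ U n d ∧
        ∀ j, ∃ y ∈ R d, ((g : Matrix (Fin (n - 1)) (Fin (n - 1)) ℂ) *ᵥ rad n d) j - rad n d j =
          br d n * y) ∧
    ((∀ g : GL (Fin (3 - 1)) ℂ, g ∈ Gam 3 3 ↔
      g ∈ U 3 3 ∧ (g : Matrix (Fin (3 - 1)) (Fin (3 - 1)) ℂ) *ᵥ rad 3 3 = rad 3 3) ∧
      (Gam 3 3).relIndex (U 3 3) = 6) ∧
    ∀ n d : ℕ, 3 ≤ n → 3 ≤ d → d ∣ n →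
      (∀ g : GL (Fin (n - 1)) ℂ, g ∈ Gam n d ↔
        g ∈ U n d ∧ (g : Matrix (Fin (n - 1)) (Fin (n - 1)) ℂ) *ᵥ rad n d = rad n d ∧
        ∃ γ ∈ Gam n d, ∃ ψ : Fin (n - 1) → ℂ, (∀ j, ∃ y ∈ R d, ψ j = (1 - zeta d) * y) ∧
          (g : Matrix (Fin (n - 1)) (Fin (n - 1)) ℂ) = γ + vecMulVec (rad n d) ψ) ∧
      ((∀ p : ℕ, p.Prime → ∀ k : ℕ, p ^ k ≠ d) → ∀ g : GL (Fin (n - 1)) ℂ, g ∈ Gam n d ↔
        g ∈ U n d ∧ (g : Matrix (Fin (n - 1)) (Fin (n - 1)) ℂ) *ᵥ rad n d = rad n d ∧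
        ∃ γ ∈ Gam n d, ∃ ψ : Fin (n - 1) → ℂ,
          (g : Matrix (Fin (n - 1)) (Fin (n - 1)) ℂ) = γ + vecMulVec (rad n d) ψ) ∧
      (5 ≤ n → ∀ φ : Fin (n - 1) → ℂ,
        ((∃ γ ∈ Gam n d, (γ : Matrix (Fin (n - 1)) (Fin (n - 1)) ℂ) =
          1 + vecMulVec (rad n d) φ) ↔
        φ ⬝ᵥ rad n d = 0 ∧ ∀ j, ∃ y ∈ R d, φ j = (1 - zeta d) * y)) ∧
      (2 < Nat.totient d → (Gam n d).relIndex (U n d) = 0) := by
  refine ⟨fun n d hn hd => ⟨fun i => ⟨sig n d i, sig_mem n d i, rfl⟩, fun g hg =>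
    ⟨(gam_le n d (by omega) g hg).1, fun j => congr_rad n d hn (by omega) g hg j⟩⟩,
    ⟨?_, index_six⟩, fun n d hn hd h => ⟨fun g => preimage_gen n d hn hd h g,
      fun hp g => preimage n d hn hd h hp g, ?_, fun ht => infinite_index n d hn hd h ht⟩⟩
  · intro g
    constructor
    · intro hg
      exact ⟨(gam_le 3 3 (by norm_num) g hg).1, gam_rad 3 3 le_rfl le_rfl dvd_rfl g hg⟩
    · rintro ⟨h1, h2⟩
      exact mem_of g h1 h2
  · intro hn5 φ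
    constructor
    · rintro ⟨γ, hγ, e⟩
      refine ⟨?_, fun j => unip_cong n d hn5 hd h γ hγ φ e j⟩
      have hr0 : rad n d ⟨0, by omega⟩ = 1 := by simp [rad, br]
      have h1 := gam_rad n d hn hd h γ hγ
      rw [e, Matrix.add_mulVec, Matrix.one_mulVec] at h1
      have h2 := congrFun h1 ⟨0, by omega⟩
      rw [Pi.add_apply, hr0, add_eq_left, Matrix.mulVec, dotProduct] at h2
      rw [dotProduct, ← h2]
      refine Finset.sum_congr rfl fun j _ => ?_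
      rw [vecMulVec_apply, hr0, one_mul]
    · rintro ⟨hr, hφ⟩
      choose χ hχ hχe using hφ
      have hφχ : φ = (1 - zeta d) • χ := by
        ext j
        rw [hχe j, Pi.smul_apply, smul_eq_mul]
      have hχr : χ ⬝ᵥ rad n d = 0 := by
        rw [hφχ, smul_dotProduct, smul_eq_mul] at hr
        exact (mul_eq_zero.1 hr).resolve_left (sub_ne_zero.2 (zeta_ne_one d hd).symm)
      obtain ⟨γ, hγ, e⟩ := unip_weak n d hn hd h χ hχ hχr
      exact ⟨γ, hγ, by rw [e, hφχ, vecMulVec_smul]⟩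

end Pool.Agent.Results.MP_61a4e3_al.DegenerateBurau
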