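import Mathlib
import Pool.Agent.Burau938.Core
import Pool.Agent.Burau938.Degen
import Pool.Agent.Burau938.Perm
import Pool.Agent.Burau938.Coset
import Pool.Agent.Burau938.Quot
import Pool.Agent.Burau938.Ident

set_option autoImplicit false

namespace Pool.Agent.Results.MP_61a4e3_al.ExactReduction

open Matrix Pool.Agent.Burau938

/-- For `d ∣ n` the group `Γ_{n,d}` is described exactly through `Γ_{n-1,d}` (`n = m + 2`); also
congruence conditions for all `n, d`, and `Γ_{3,3}`. -/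
theorem result :
    (∀ n d : ℕ, 3 ≤ n → 3 ≤ d →
      (∀ i, ∃ g ∈ Gam n d, (g : Matrix (Fin (n - 1)) (Fin (n - 1)) ℂ) = sigma n d i) ∧
      ∀ g ∈ Gam n d, g ∈ U n d ∧
        ∀ j, ∃ y ∈ R d, ((g : Matrix (Fin (n - 1)) (Fin (n - 1)) ℂ) *ᵥ rad n d) j - rad n d j =
          br d n * y) ∧
    ((∀ g : GL (Fin (3 - 1)) ℂ, g ∈ Gam 3 3 ↔
      g ∈ U 3 3 ∧ (g : Matrix (Fin (3 - 1)) (Fin (3 - 1)) ℂ) *ᵥ rad 3 3 = rad 3 3) ∧
      (Gam 3 3).relIndex (U 3 3) = 6) ∧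
    (∀ m d : ℕ, 3 ≤ m → 3 ≤ d → d ∣ m + 2 → ∀ g : GL (Fin (m + 2 - 1)) ℂ,
      g ∈ Gam (m + 2) d ↔
        ∃ k, k < m + 2 ∧ ∃ ν : GL (Fin (m + 2 - 1)) ℂ,
          ((ν : Matrix (Fin (m + 2 - 1)) (Fin (m + 2 - 1)) ℂ) *ᵥ rad (m + 2) d =
              rad (m + 2) d ∧
            ∃ μ ∈ Gam (m + 1) d, BF (m := m) ν.1 μ.1) ∧
          ∃ ψ : Fin (m + 2 - 1) → ℂ,
          (∀ j, ∃ y ∈ R d, ψ j = (1 - zeta d) * y) ∧
          (g : Matrix (Fin (m + 2 - 1)) (Fin (m + 2 - 1)) ℂ) *ᵥ rad (m + 2) d =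
            rad (m + 2) d ∧
          (g : Matrix (Fin (m + 2 - 1)) (Fin (m + 2 - 1)) ℂ) =
            (ν * sk (m + 2) d k : GL (Fin (m + 2 - 1)) ℂ) + vecMulVec (rad (m + 2) d) ψ) ∧
    (∀ n d : ℕ, 5 ≤ n → 3 ≤ d → d ∣ n →
      (∀ φ : Fin (n - 1) → ℂ,
        ((∃ γ ∈ Gam n d, (γ : Matrix (Fin (n - 1)) (Fin (n - 1)) ℂ) =
          1 + vecMulVec (rad n d) φ) ↔
        φ ⬝ᵥ rad n d = 0 ∧ ∀ j, ∃ y ∈ R d, φ j = (1 - zeta d) * y))) ∧
    ∀ n d : ℕ, 3 ≤ n → 3 ≤ d → d ∣ n →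
      ((∀ p : ℕ, p.Prime → ∀ k : ℕ, p ^ k ≠ d) → ∀ g : GL (Fin (n - 1)) ℂ, g ∈ Gam n d ↔
        g ∈ U n d ∧ (g : Matrix (Fin (n - 1)) (Fin (n - 1)) ℂ) *ᵥ rad n d = rad n d ∧
        ∃ k, k < n ∧ ∃ ν ∈ Nn n d, ∃ ψ : Fin (n - 1) → ℂ,
          (g : Matrix (Fin (n - 1)) (Fin (n - 1)) ℂ) =
            (ν * sk n d k : GL (Fin (n - 1)) ℂ) + vecMulVec (rad n d) ψ) ∧
      (2 < Nat.totient d → (Gam n d).relIndex (U n d) = 0) := by
  refine ⟨fun n d hn hd => ⟨fun i => ⟨sig n d i, sig_mem n d i, rfl⟩, fun g hg =>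
    ⟨(gam_le n d (by omega) g hg).1, fun j => congr_rad n d hn (by omega) g hg j⟩⟩,
    ⟨?_, index_six⟩, ?_, fun n d hn hd h => ?_,
    fun n d hn hd h => ⟨?_, fun ht => infinite_index n d hn hd h ht⟩⟩
  · intro g
    constructor
    · intro hg
      exact ⟨(gam_le 3 3 (by norm_num) g hg).1, gam_rad 3 3 le_rfl le_rfl dvd_rfl g hg⟩
    · rintro ⟨h1, h2⟩
      exact mem_of g h1 h2
  · intro m d hm hd h g
    rw [exact (m + 2) d (by omega) hd h g]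
    constructor
    · rintro ⟨k, hk, ν, hν, ψ, h1, h2, h3⟩
      exact ⟨k, hk, ν, (ident m d (by omega) hd h ν).1 hν, ψ, h1, h2, h3⟩
    · rintro ⟨k, hk, ν, hν, ψ, h1, h2, h3⟩
      exact ⟨k, hk, ν, (ident m d (by omega) hd h ν).2 hν, ψ, h1, h2, h3⟩
  · intro φ
    constructor
    · rintro ⟨γ, hγ, e⟩
      refine ⟨?_, fun j => unip_cong n d hn hd h γ hγ φ e j⟩
      have hr0 : rad n d ⟨0, by omega⟩ = 1 := by simp [rad, br]
      have h1 := gam_rad n d (by omega) hd h γ hγ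
      rw [e, Matrix.add_mulVec, Matrix.one_mulVec] at h1
      have h2 := congrFun h1 ⟨0, by omega⟩
      rw [Pi.add_apply, hr0, add_eq_left, Matrix.mulVec, dotProduct] at h2
      rw [dotProduct, ← h2]
      refine Finset.sum_congr rfl fun j _ => ?_
      rw [vecMulVec_apply, hr0, one_mul]
    · rintro ⟨hr, hφ⟩
      choose χ hχ hχe using hφ
      have hφχ : φ = (1 - zeta d) • χ := by
        ext j
        rw [hχe j, Pi.smul_apply, smul_eq_mul]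
      have hχr : χ ⬝ᵥ rad n d = 0 := by
        rw [hφχ, smul_dotProduct, smul_eq_mul] at hr
        exact (mul_eq_zero.1 hr).resolve_left (sub_ne_zero.2 (zeta_ne_one d hd).symm)
      obtain ⟨γ, hγ, e⟩ := unip_weak n d (by omega) hd h χ hχ hχr
      exact ⟨γ, hγ, by rw [e, hφχ, vecMulVec_smul]⟩
  · intro hp g
    constructor
    · intro hg
      obtain ⟨k, hk, ν, hν, ψ, e⟩ := cover n d hn hd h g hg
      exact ⟨(gam_le n d (by omega) g hg).1, gam_rad n d hn hd h g hg, k, hk, ν, hν, ψ, e⟩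
    · rintro ⟨hU, hr, k, hk, ν, hν, ψ, e⟩
      exact (preimage n d hn hd h hp g).2 ⟨hU, hr, ν * sk n d k,
        Subgroup.mul_mem _ (Nn_le n d hν) (sp_mem_gam n d k), ψ, e⟩

end Pool.Agent.Results.MP_61a4e3_al.ExactReduction
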