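import Mathlib
import Pool.Agent.Burau938.Core

set_option autoImplicit false

namespace Pool.Agent.Results.MP_61a4e3_al.SmallBurau

open Matrix Pool.Agent.Burau938

/-- Congruence conditions for all `n, d`; exact determination of `Γ_{3,3}`; infinite index when
`d ∣ n` and `d ∉ {3, 4, 6}`. -/
theorem result :
    (∀ n d : ℕ, 3 ≤ n → 3 ≤ d →
      (∀ i, ∃ g ∈ Gam n d, (g : Matrix (Fin (n - 1)) (Fin (n - 1)) ℂ) = sigma n d i) ∧
      ∀ g ∈ Gam n d, g ∈ U n d ∧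
        ∀ j, ∃ y ∈ R d, ((g : Matrix (Fin (n - 1)) (Fin (n - 1)) ℂ) *ᵥ rad n d) j - rad n d j =
          br d n * y) ∧
    (∀ g : GL (Fin (3 - 1)) ℂ, g ∈ Gam 3 3 ↔
      g ∈ U 3 3 ∧ (g : Matrix (Fin (3 - 1)) (Fin (3 - 1)) ℂ) *ᵥ rad 3 3 = rad 3 3) ∧
    (Gam 3 3).relIndex (U 3 3) = 6 ∧
    (∀ n d : ℕ, 3 ≤ n → 3 ≤ d → d ∣ n → 2 < Nat.totient d → (Gam n d).relIndex (U n d) = 0) := by
  refine ⟨fun n d hn hd => ⟨fun i => ⟨sig n d i, sig_mem n d i, rfl⟩, fun g hg =>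
    ⟨(gam_le n d (by omega) g hg).1, fun j => congr_rad n d hn (by omega) g hg j⟩⟩, ?_,
    index_six, fun n d hn hd h ht => infinite_index n d hn hd h ht⟩
  intro g
  constructor
  · intro hg
    refine ⟨(gam_le 3 3 (by norm_num) g hg).1, ?_⟩
    ext j
    obtain ⟨y, -, hy⟩ := congr_rad 3 3 le_rfl (by norm_num) g hg j
    rw [br_zero_of_dvd 3 3 le_rfl dvd_rfl, zero_mul] at hy
    exact sub_eq_zero.1 hy
  · rintro ⟨h1, h2⟩
    exact mem_of g h1 h2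

end Pool.Agent.Results.MP_61a4e3_al.SmallBurau
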